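import Pool.Agent.R708.HS.D

/-!
# MP_e18349_al, Q1: negative answer

A commutative ring `R` with `R ∈ Loc⟨κ(p) : p ∈ Spec R⟩` in `D(R)` whose spectrum is not weakly
noetherian. (By the criterion recalled in the problem file, `D(R)` is then h-stratified and
satisfies the Nerves of Steel conjecture.)

The ring is `HStrat.W`: sequences `(f_i)` of power series over `ℚ` with a common constant
coefficient `c` and `f_i = c` for all large `i`.

The definitions `DCat`, `deg0`, `IsLocalizing` are in `Pool/Agent/R708/HS/D.lean`, the
definitions `IsThomason`, `WeaklyVisible`, `WeaklyNoetherian` in `Pool/Agent/R708/HS/C.lean`.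
-/

open HStrat

namespace Pool.Agent.Results.MP_e18349_al.HStratNotWeaklyNoetherian

/-- There is a commutative ring `R` such that every localizing subcategory of `D(R)` containing all
residue fields contains `R`, and such that `Spec R` is not weakly noetherian. -/
theorem result :
    ∃ (R : Type) (_ : CommRing R),
      (∀ P : DCat R → Prop, IsLocalizing P →
        (∀ (p : Ideal R) [p.IsPrime], P (deg0 R p.ResidueField)) → P (deg0 R R)) ∧
      ¬ WeaklyNoetherian (PrimeSpectrum R) :=
  ⟨W, inferInstance, fun _ hP hκ => hP.good.ring hκ, not_weaklyNoetherian⟩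

end Pool.Agent.Results.MP_e18349_al.HStratNotWeaklyNoetherian
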